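import Pool.Agent.Helper13.TR.StC

/-!
Project TR, module LOC: localisation.
-/

set_option autoImplicit false

namespace Pool.Agent.Helper21.TR

open Set Topology Pool.Agent.Helper13.TR

theorem hLOC : StLOC := by
  intro G X C _ _ _ _ _ _ _ hG x N hN j hj
  have : T2Space X := by
    letI := TopologicalSpace.metrizableSpaceMetric X
    infer_instance
  have : T2Space C := by
    letI := TopologicalSpace.metrizableSpaceMetric C
    infer_instance
  obtain ⟨N', hN'x, hN'N, hN'c⟩ := local_compact_nhds hN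
  have hxN : x ∈ N := mem_of_mem_nhds hN
  -- the compact image
  have hval : IsCompact ((fun w : ↥N => (w : X)) ⁻¹' N') := by
    rw [IsEmbedding.subtypeVal.isCompact_iff]
    have : (Subtype.val '' ((fun w : ↥N => (w : X)) ⁻¹' N')) = N' := by
      rw [Subtype.image_preimage_coe]
      exact inter_eq_right.2 hN'N
    rw [this]
    exact hN'c
  set J : Set (G × C) := j '' ((fun w : ↥N => (w : X)) ⁻¹' N') with hJ
  have hJc : IsCompact J := hval.image hj.continuous
  have hJcl : IsClosed J := hJc.isClosed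
  set C' : Set C := Prod.snd '' J with hC'
  have hC'c : IsCompact C' := hJc.image continuous_snd
  have : CompactSpace ↥C' := isCompact_iff_compactSpace.1 hC'c
  -- the open set `O`
  have hSo : IsOpen ((fun w : ↥N => (w : X)) ⁻¹' interior N') :=
    isOpen_interior.preimage continuous_subtype_val
  obtain ⟨O, hO, hOS⟩ := (hj.isInducing.isOpen_iff).1 hSo
  have hxS : (⟨x, hxN⟩ : ↥N) ∈ j ⁻¹' O := by
    rw [hOS]
    exact mem_interior_iff_mem_nhds.2 hN'x
  obtain ⟨u, v, hu, hv, hxu, hxv, huv⟩ := isOpen_prod_iff.1 hO (j ⟨x, hxN⟩).1 (j ⟨x, hxN⟩).2 hxS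
  obtain ⟨G₀, hG₀, hxG₀, hG₀u, ⟨φ⟩⟩ := hG _ u hu hxu
  have hTo : IsOpen (j ⁻¹' (G₀ ×ˢ v)) := (hG₀.prod hv).preimage hj.continuous
  obtain ⟨T, hT, hTv⟩ := isOpen_induced_iff.1 hTo
  have hTiff : ∀ w : ↥N, (w : X) ∈ T ↔ j w ∈ G₀ ×ˢ v := by
    intro w
    have := Set.ext_iff.1 hTv w
    simpa using this
  have hOiff : ∀ w : ↥N, j w ∈ O ↔ (w : X) ∈ interior N' := by
    intro w
    have := Set.ext_iff.1 hOS w
    simpa using this
  set U : Set X := interior N' ∩ T with hU
  have hUN : ∀ w : ↥U, (w : X) ∈ N := fun w => hN'N (interior_subset w.2.1)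
  set inc : ↥U → ↥N := fun w => ⟨(w : X), hUN w⟩ with hinc
  have hincc : Continuous inc := continuous_subtype_val.subtype_mk _
  have hinc_e : IsEmbedding inc :=
    IsEmbedding.of_comp hincc continuous_subtype_val IsEmbedding.subtypeVal
  have hmemJ : ∀ w : ↥U, j (inc w) ∈ J := fun w => ⟨inc w, (interior_subset w.2.1 : (w : X) ∈ N'), rfl⟩
  have hmemR : ∀ w : ↥U, j (inc w) ∈ G₀ ×ˢ v := fun w => (hTiff (inc w)).1 w.2.2
  let V : Set ↥C' := {c : ↥C' | (c : C) ∈ v}
  have hVo : IsOpen V := hv.preimage continuous_subtype_val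
  have : LocallyCompactSpace ↥V := hVo.locallyCompactSpace
  let f₁ : ↥U → ↥G₀ × ↥V := fun w =>
    (⟨(j (inc w)).1, (hmemR w).1⟩, ⟨⟨(j (inc w)).2, ⟨_, hmemJ w, rfl⟩⟩, (hmemR w).2⟩)
  have hjc : Continuous fun w : ↥U => j (inc w) := hj.continuous.comp hincc
  have hf₁c : Continuous f₁ := by
    refine Continuous.prodMk ?_ ?_
    · exact (continuous_fst.comp hjc).subtype_mk _
    · exact ((continuous_snd.comp hjc).subtype_mk _).subtype_mk _
  let κ : ↥G₀ × ↥V → G × C := fun p => ((p.1 : G), ((p.2 : ↥C') : C))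
  have hκ : Continuous κ :=
    (continuous_subtype_val.comp continuous_fst).prodMk
      (continuous_subtype_val.comp (continuous_subtype_val.comp continuous_snd))
  have hκf : κ ∘ f₁ = j ∘ inc := by
    funext w
    rfl
  have hf₁e : IsEmbedding f₁ := by
    refine IsEmbedding.of_comp hf₁c hκ ?_
    rw [hκf]
    exact hj.comp hinc_e
  have hrange : range f₁ = κ ⁻¹' J := by
    ext p
    constructor
    · rintro ⟨w, rfl⟩
      exact hmemJ w
    · rintro ⟨w, hw, hwp⟩
      have hp : j w ∈ G₀ ×ˢ v := by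
        rw [hwp]
        exact ⟨p.1.2, p.2.2⟩
      have h1 : (w : X) ∈ interior N' := (hOiff w).1 (huv ⟨hG₀u hp.1, hp.2⟩)
      have h2 : (w : X) ∈ T := (hTiff w).2 hp
      refine ⟨⟨(w : X), h1, h2⟩, ?_⟩
      have h3 : inc ⟨(w : X), h1, h2⟩ = w := rfl
      have h4 : κ (f₁ ⟨(w : X), h1, h2⟩) = κ p := hwp
      have h5 : Function.Injective κ := by
        rintro ⟨a, b⟩ ⟨a', b'⟩ hab
        have ha : (a : G) = a' := congrArg Prod.fst hab
        have hb : ((b : ↥C') : C) = (b' : ↥C') := congrArg Prod.snd hab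
        exact Prod.ext (Subtype.ext ha) (Subtype.ext (Subtype.ext hb))
      exact h5 h4
  have hf₁ : IsClosedEmbedding f₁ := ⟨hf₁e, by rw [hrange]; exact hJcl.preimage hκ⟩
  refine ⟨U, isOpen_interior.inter hT, ⟨mem_interior_iff_mem_nhds.2 hN'x, ?_⟩, ↥V, inferInstance,
    inferInstance, inferInstance, ⟨fun c => ((c : ↥C') : C), IsEmbedding.subtypeVal.comp IsEmbedding.subtypeVal⟩,
    fun w => (φ (f₁ w).1, (f₁ w).2), ?_⟩
  · exact (hTiff ⟨x, hxN⟩).2 ⟨hxG₀, hxv⟩
  · have : (fun w => (φ (f₁ w).1, (f₁ w).2)) = (φ.prodCongr (Homeomorph.refl ↥V)) ∘ f₁ := rfl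
    rw [this]
    exact (φ.prodCongr (Homeomorph.refl ↥V)).isClosedEmbedding.comp hf₁

end Pool.Agent.Helper21.TR
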